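import Mathlib
import Pool.Agent.H.MP_9b2749_nt.A

namespace Pool.Agent.Results.MP_9b2749_nt.Holds

open Finset

/-- the binomial coefficient `x (x-1) ... (x-k+1) / k!` for rational `x` -/
def gb (x : ℚ) (k : ℕ) : ℚ := (∏ i ∈ range k, (x - i)) / (k.factorial : ℚ)

theorem result (m r : ℤ) (p : ℕ) (hp : p.Prime) (hodd : Odd p) (hm : 2 < m)
    (hpm : ¬ (p : ℤ) ∣ m) (hpr : r < p) (hpar : ¬ m ≡ r [ZMOD 2]) (hc : (p : ℤ) ≡ r [ZMOD m])
    (hr : -(m : ℚ) / 2 ≤ r) :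
    ∃ ρ : ℚ, ¬ p ∣ ρ.den ∧
      ∑ k ∈ range p, (-1) ^ (k * m.toNat) * gb ((r : ℚ) / m) k ^ m.toNat = (p : ℚ) ^ 3 * ρ := by
  obtain ⟨n, rfl⟩ : ∃ n : ℕ, m = n := ⟨m.toNat, by omega⟩
  rw [Int.toNat_natCast]
  have hr' : -(n : ℤ) ≤ 2 * r := by
    have : (-(n : ℚ)) ≤ 2 * (r : ℚ) := by push_cast at hr; linarith
    exact_mod_cast this
  obtain ⟨s, hs⟩ := hc.symm.dvd
  have hs0 : 0 < s := by
    by_contra h
    have : (n : ℤ) * s ≤ 0 := mul_nonpos_of_nonneg_of_nonpos (by omega) (by omega)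
    omega
  obtain ⟨t, rfl⟩ : ∃ t : ℕ, s = t + 1 := ⟨(s - 1).toNat, by omega⟩
  have hn : 2 < n := by omega
  have hmul : (n : ℤ) * (t + 1) = ((n * t : ℕ) : ℤ) + n := by push_cast; ring
  rw [hmul] at hs
  have hd : n * t + 1 < p := by omega
  have hev : Even (n * t) := by
    obtain ⟨j, hj⟩ := hodd
    unfold Int.ModEq at hpar
    rw [Nat.even_iff]; omega
  have hpn : ¬ p ∣ n := fun h => hpm (Int.natCast_dvd_natCast.2 h)
  by_cases h3 : 3 < p
  · obtain ⟨ρ, h1, h2⟩ := Pool.Agent.H.MP_9b2749_nt.main (hp := hp) h3 t n hn hpn hd hev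
    refine ⟨ρ, h1, ?_⟩
    rw [← h2]
    refine sum_congr rfl fun k _ => ?_
    have hn0 : (n : ℚ) ≠ 0 := by positivity
    have hx : (r : ℚ) / ((n : ℤ) : ℚ) = p * (n : ℚ)⁻¹ - (t + 1) := by
      have : (r : ℚ) = p - (n * t + n) := by
        have : r = (p : ℤ) - (((n * t : ℕ) : ℤ) + n) := by omega
        rw [this]; push_cast; ring
      rw [this]; push_cast; field_simp
    rw [pow_mul, ← mul_pow, gb, hx]
    congr 1
    have e2 : ((-1 : ℚ)) ^ k = ∏ _j ∈ range k, (-1 : ℚ) := by simp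
    rw [← mul_div_assoc, e2, ← prod_mul_distrib]
    congr 1
    exact prod_congr rfl fun i _ => by ring
  · obtain rfl : p = 3 := by
      have := hp.two_le
      obtain ⟨j, hj⟩ := hodd
      omega
    have ht : t = 0 := by
      by_contra h
      have : n * 1 ≤ n * t := Nat.mul_le_mul_left n (by omega)
      omega
    subst ht
    have hn6 : n = 4 ∨ n = 5 := by
      have : n ≠ 3 := by rintro rfl; simp at hpn
      have : n ≠ 6 := by rintro rfl; simp at hpn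
      simp at hs
      omega
    rcases hn6 with rfl | rfl
    · obtain rfl : r = -1 := by simp at hs; omega
      refine ⟨(∑ k ∈ range 3, (-1) ^ (k * 4) * gb (((-1 : ℤ) : ℚ) / (((4 : ℕ) : ℤ) : ℚ)) k ^ 4) / 27, ?_, by
        push_cast; ring⟩
      simp [sum_range_succ, prod_range_succ, gb, Nat.factorial]
      norm_num
    · obtain rfl : r = -2 := by simp at hs; omega
      refine ⟨(∑ k ∈ range 3, (-1) ^ (k * 5) * gb (((-2 : ℤ) : ℚ) / (((5 : ℕ) : ℤ) : ℚ)) k ^ 5) / 27, ?_, by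
        push_cast; ring⟩
      simp [sum_range_succ, prod_range_succ, gb, Nat.factorial]
      norm_num

end Pool.Agent.Results.MP_9b2749_nt.Holds
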